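import Pool.Agent.Y787.AS.StrataFin

/-!
# Matrices of logarithms of small rank without rational zero

The theorem of Waldschmidt and Masser settles Q1 and Q2 for the `n × n` matrices of rank `r` with
`2 r < n`.  Here are all ranks.  Call an `n × n` matrix of complex (`p`-adic) logarithms of
algebraic numbers an exception of rank `≤ r` if its rank is at most `r < n` and it has no rational
zero, that is no nonzero rational vectors `w`, `v` with `wᵗ M v = 0`; the violations of Q1 (Q2) are
the exceptions with `r = n - 1`.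

* Dimension.  Let `W` be any finite-dimensional rational vector space of logarithms of algebraic
  numbers.  If `2 r ≤ n + 1`, the exceptions of rank `≤ r` with entries in `W` lie in an algebraic
  subset (over `ℚ`) of dimension at most `n² (n² - 1)`, a bound independent of `W`.  For the other
  `r` they lie in one of dimension at most `ρ dim W + (n² - ρ) (n² - 1)` with `ρ = n (2 r - n)`;
  the matrices of rank `≤ r` have dimension at least `r n dim W`, and `n (2 r - n) < r n`.
* Counting.  Let `l_1, ..., l_N` be logarithms of algebraic numbers which are linearly independent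
  over `ℚ`.  Among the matrices with entries `∑ A_ijk l_k`, `A_ijk` integers with `|A_ijk| ≤ H`, at
  least `H ^ (r n N)` have rank at most `r`, and at most `κ H ^ (ρ N + (n² - ρ) (n² - 1))` of these
  are exceptions, with `ρ = 0` if `2 r ≤ n + 1` and `ρ = n (2 r - n)` otherwise.

The first cases with `2 r ≤ n + 1` are `n = 2`, `r = 1` (four exponentials), `n = 3`, `r = 2` (all
singular `3 × 3` matrices), `n = 4`, `r = 2` and `n = 5`, `r = 3`.

The proof.

1. A theorem for an arbitrary variety `V` in `m`-space (`Y787.AS.Abs`, `Y787.AS.Var`), here for the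
   `n × n` matrices of rank `≤ r`, `m = n²`: outside an algebraic set of dimension at most
   `ρ dim W + (m - ρ) (m - 1)`, for each point `y` of `V` with coordinates in `W` there is a rational
   linear space `R` of dimension greater than `ρ` with `y + R_ℂ ⊆ V`.  Its proof uses all derivations
   of the coordinates of a generic point of a family, over the field of germs along an ultrafilter,
   and the hyperplane case of the linear subgroup theorem.
2. If `C` is a rational matrix of rank `s` and all `M + x C` have rank `≤ r`, then `M`, restricted to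
   the left and right kernels of `C`, is a matrix of size `n - s` and rank `≤ r - s`
   (`Y787.AS.Blk`).  By the theorem of Waldschmidt and Masser it has a rational zero if
   `2 r < n + s`.  If `2 r = n + 1` and `s = 1`, then `M` restricted to one of the two kernels has
   rank `≤ r - 1`, and the rectangular form of that theorem, for `n - 1` rows or columns, applies.
3. If `M` has no rational zero, all `C` in `R` have therefore rank `≤ 2 r - n`, and `R = 0` if
   `2 r ≤ n + 1`.  By a theorem of Flanders (`Y787.AS.Fl`) the dimension of `R` is at most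
   `n (2 r - n)`.
-/

set_option autoImplicit false

namespace Pool.Agent.Results.MP_1f047c_nt.RankStrata

/-- `L` is the Iwasawa logarithm on the algebraic closure of `ℚ_p`. -/
structure IsIwasawaLog (p : ℕ) [Fact p.Prime] (L : PadicAlgCl p → PadicAlgCl p) : Prop where
  mul : ∀ x y : PadicAlgCl p, x ≠ 0 → y ≠ 0 → L (x * y) = L x + L y
  prime : L ((p : ℕ) : PadicAlgCl p) = 0
  ser : ∀ z : PadicAlgCl p, ‖z‖ < 1 →
    HasSum (fun n : ℕ => (-1 : PadicAlgCl p) ^ n * z ^ (n + 1) / ((n : PadicAlgCl p) + 1))
      (L (1 + z))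

/-- The conclusion of Q1 and Q2: there are nonzero rational vectors `w`, `v` with `wᵗ M v = 0`. -/
def HasRationalZero {E : Type} [Field E] [CharZero E] {n : ℕ} (M : Matrix (Fin n) (Fin n) E) :
    Prop :=
  ∃ w v : Fin n → ℚ, w ≠ 0 ∧ v ≠ 0 ∧ ∑ i, ∑ j, (w i : E) * M i j * (v j : E) = 0

/-- An exception: a matrix of rank at most `r` without rational zero. -/
def IsException {E : Type} [Field E] [CharZero E] {n : ℕ} (r : ℕ)
    (M : Matrix (Fin n) (Fin n) E) : Prop :=
  M.rank ≤ r ∧ ¬ HasRationalZero M

/-- The set `S` of matrices with entries in `W` lies in an algebraic subset of dimension at most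
`d`: any `d + 1` rational linear forms satisfy a nontrivial polynomial relation on `S`. -/
def DimensionAtMost {E : Type} [Field E] [CharZero E] (W : Submodule ℚ E) {n : ℕ}
    (d : ℕ) (S : Set (Matrix (Fin n) (Fin n) W)) : Prop :=
  ∀ φ : Fin (d + 1) → (Matrix (Fin n) (Fin n) W →ₗ[ℚ] ℚ),
    ∃ P : MvPolynomial (Fin (d + 1)) ℚ, P ≠ 0 ∧
      ∀ A ∈ S, MvPolynomial.eval (fun k => φ k A) P = 0

/-- The coefficient `ρ`: zero if `2 r ≤ n + 1`, and `n (2 r - n)` otherwise. -/
def coefficient (n r : ℕ) : ℕ := if 2 * r ≤ n + 1 then 0 else n * (2 * r - n)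

/-- The exponent `ρ D + (n² - ρ) (n² - 1)`. -/
def exponent (n r D : ℕ) : ℕ := coefficient n r * D + (n * n - coefficient n r) * (n * n - 1)

/-- The matrix with the entries `∑ k, A i j k * l k`. -/
noncomputable def logMatrix {E : Type} [Field E] {n N : ℕ} (l : Fin N → E)
    (A : Fin n → Fin n → Fin N → ℤ) : Matrix (Fin n) (Fin n) E :=
  Matrix.of fun i j => ∑ k, (A i j k : E) * l k

/-- The number of the integer arrays `A` with entries of absolute value at most `H` such that the
matrix with the entries `∑ k, A i j k * l k` has the property `Q`. -/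
noncomputable def number {E : Type} [Field E] {n N : ℕ} (l : Fin N → E) (H : ℕ)
    (Q : Matrix (Fin n) (Fin n) E → Prop) : ℕ :=
  Set.ncard {A : Fin n → Fin n → Fin N → ℤ | (∀ i j k, |A i j k| ≤ H) ∧ Q (logMatrix l A)}

/-- **Main result.** -/
theorem result (n r : ℕ) (hr : r < n) :
    -- complex logarithms
    ((∀ (W : Submodule ℚ ℂ) [FiniteDimensional ℚ W],
        (∀ z ∈ W, IsAlgebraic ℚ (Complex.exp z)) →
        DimensionAtMost W (exponent n r (Module.finrank ℚ W))
          {A : Matrix (Fin n) (Fin n) W | IsException r (A.map (fun x => (x : ℂ)))}) ∧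
      ∀ (N : ℕ) (l : Fin N → ℂ), (∀ k, IsAlgebraic ℚ (Complex.exp (l k))) →
        LinearIndependent ℚ l → ∃ κ : ℕ, ∀ H : ℕ, 1 ≤ H →
          number l H (fun M : Matrix (Fin n) (Fin n) ℂ => IsException r M) ≤
            κ * H ^ exponent n r N ∧
          H ^ (r * n * N) ≤ number l H (fun M : Matrix (Fin n) (Fin n) ℂ => M.rank ≤ r)) ∧
    -- `p`-adic logarithms
    ∀ (p : ℕ) [Fact p.Prime] (L : PadicAlgCl p → PadicAlgCl p), IsIwasawaLog p L →
      (∀ (W : Submodule ℚ (PadicAlgCl p)) [FiniteDimensional ℚ W],
        (∀ z ∈ W, ∃ α : PadicAlgCl p, α ≠ 0 ∧ IsAlgebraic ℚ α ∧ z = L α) →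
        DimensionAtMost W (exponent n r (Module.finrank ℚ W))
          {A : Matrix (Fin n) (Fin n) W | IsException r (A.map (fun x => (x : PadicAlgCl p)))}) ∧
      ∀ (N : ℕ) (l : Fin N → PadicAlgCl p),
        (∀ k, ∃ α : PadicAlgCl p, α ≠ 0 ∧ IsAlgebraic ℚ α ∧ l k = L α) →
        LinearIndependent ℚ l → ∃ κ : ℕ, ∀ H : ℕ, 1 ≤ H →
          number l H (fun M : Matrix (Fin n) (Fin n) (PadicAlgCl p) => IsException r M) ≤
            κ * H ^ exponent n r N ∧
          H ^ (r * n * N) ≤
            number l H (fun M : Matrix (Fin n) (Fin n) (PadicAlgCl p) => M.rank ≤ r) := by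
  refine ⟨⟨?_, ?_⟩, ?_⟩
  · intro W _ hW φ
    obtain ⟨P, h1, h2⟩ := Pool.Agent.Y787.AS.rankC_dim W hW hr φ
    exact ⟨P, h1, fun A hA => h2 A hA.1 hA.2⟩
  · intro N l halg hli
    obtain ⟨κ, hκ⟩ := Pool.Agent.Y787.AS.rankC_count hr l halg hli
    exact ⟨κ, fun H hH => ⟨hκ H hH, Pool.Agent.Y787.AS.rank_lower hr.le l H⟩⟩
  · intro p _ L hL
    have hL' : Pool.Agent.W245.PB.IsIwasawaLog p L := ⟨hL.mul, hL.prime, hL.ser⟩
    refine ⟨?_, ?_⟩
    · intro W _ hW φ
      obtain ⟨P, h1, h2⟩ := Pool.Agent.Y787.AS.rankP_dim hL' W hW hr φ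
      exact ⟨P, h1, fun A hA => h2 A hA.1 hA.2⟩
    · intro N l hl hli
      obtain ⟨κ, hκ⟩ := Pool.Agent.Y787.AS.rankP_count hL' hr l hl hli
      exact ⟨κ, fun H hH => ⟨hκ H hH, Pool.Agent.Y787.AS.rank_lower hr.le l H⟩⟩

end Pool.Agent.Results.MP_1f047c_nt.RankStrata
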