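import Pool.Agent.Y787.ZB.Fin

/-!
# Singular matrices of complex or `p`-adic logarithms without a block of zeros

A block of zeros with `a` rows and `b` columns, `a + b = n + 1`, after rational changes of basis of
the rows and of the columns, makes an `n × n` matrix `M` singular, and it contains nonzero rational
vectors `w`, `v` with `wᵗ M v = 0` (the conclusion of Q1 and Q2).  We show that the singular matrices of logarithms
without such a block are rare, for complex logarithms (Q1) and for `p`-adic logarithms (Q2).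

* Dimension.  Let `W` be a space of dimension `N ≥ n ^ 2 + 2 n - 2` over the field `ℚ̄` of the
  algebraic numbers, which consists of linear forms in `1` and logarithms of algebraic numbers.  The
  singular `n × n` matrices with entries in `W` which have no block of zeros as above over `ℚ̄` lie in
  an algebraic subset of dimension at most `(n - 1) ^ 2 N + C_n`, where
  `C_n = (2 n - 1) (2 n - 2) + n ^ 2`.  (The singular matrices have dimension at least
  `n (n - 1) N`, as one row may vanish.)
* Counting.  Let `l_1, ..., l_N` be logarithms of algebraic numbers which are linearly independent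
  over `ℚ`.  Among the matrices with entries `∑ A_ijk l_k`, `A_ijk` integers with `|A_ijk| ≤ H`, at
  least `H ^ (n (n - 1) N)` are singular, and at most `κ H ^ ((n - 1) ^ 2 N + C_n)` are singular
  without a rational block of zeros as above.  In particular this bounds the number of the
  counterexamples to Q1 (to Q2): their proportion among the singular matrices is at most
  `κ H ^ (- (n - 1) N + C_n)`.

The starting result `AlmostAllSingular` has (for complex logarithms, and the weaker condition that
rows and columns are independent) the codimension `(n + 1) N` instead of `(2 n - 1) N`.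

The proof: let `M` be a generic singular matrix without block, `c M = 0`, `M d = 0`.  As in
`AlmostAllSingular` the derivations `D` of the coordinates give `c (D M) d = 0`, and the hyperplane
case of the linear subgroup theorem reduces the problem to a lower bound for the number of
independent products of the coordinates of `c` with the coordinates of the vectors in the kernel of
the reduced matrix.  If the coordinates of `c` span a space of dimension `a < n` over the
algebraically closed field of coefficients, this kernel has dimension at least `n - a + 1` and is not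
defined over the field of coefficients (otherwise there is a block of zeros), which gives
`a (n - a + 1) + 1 ≥ 2 n - 1` products (`ZB.Rank`, `ZB.Data`); if `a = n` (on both sides) the
products of two spaces of dimension `n` span a space of dimension at least `2 n - 1`.  Blocks of
zeros descend from `ℚ̄` to `ℚ`, as for two blocks `(U, V)`, `(U', V')` one of `(U + U', V ∩ V')`,
`(U ∩ U', V + V')` is again large enough (`ZB.Desc`).
-/

set_option autoImplicit false

namespace Pool.Agent.Results.MP_1f047c_nt.SingularWithoutZeroBlock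

/-- The space of all linear combinations, with algebraic coefficients, of `1` and of logarithms of
algebraic numbers. -/
noncomputable def LogForms : Submodule (algebraicClosure ℚ ℂ) ℂ :=
  Submodule.span (algebraicClosure ℚ ℂ) ({1} ∪ {z : ℂ | IsAlgebraic ℚ (Complex.exp z)})

/-- `L` is the Iwasawa logarithm on the algebraic closure of `ℚ_p`. -/
structure IsIwasawaLog (p : ℕ) [Fact p.Prime] (L : PadicAlgCl p → PadicAlgCl p) : Prop where
  mul : ∀ x y : PadicAlgCl p, x ≠ 0 → y ≠ 0 → L (x * y) = L x + L y
  prime : L ((p : ℕ) : PadicAlgCl p) = 0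
  ser : ∀ z : PadicAlgCl p, ‖z‖ < 1 →
    HasSum (fun n : ℕ => (-1 : PadicAlgCl p) ^ n * z ^ (n + 1) / ((n : PadicAlgCl p) + 1))
      (L (1 + z))

/-- The space of all linear combinations with algebraic coefficients of `1` and of the values of `L`
at algebraic numbers. -/
noncomputable def LogFormsP {p : ℕ} [Fact p.Prime] (L : PadicAlgCl p → PadicAlgCl p) :
    Submodule (algebraicClosure ℚ (PadicAlgCl p)) (PadicAlgCl p) :=
  Submodule.span (algebraicClosure ℚ (PadicAlgCl p))
    ({1} ∪ {z | ∃ α : PadicAlgCl p, α ≠ 0 ∧ IsAlgebraic ℚ α ∧ z = L α})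

/-- For some `a + b = n + 1` there are `a` vectors `w` independent over `k` and `b` vectors `v`
independent over `k` with `wᵗ M v = 0` for all of them: after changes of basis over `k` of the rows
and of the columns, `M` has a block of zeros with `a` rows and `b` columns. -/
def HasZeroBlock (k : Type) {E : Type} [Field k] [Field E] [Algebra k E] {n : ℕ}
    (M : Matrix (Fin n) (Fin n) E) : Prop :=
  ∃ (a b : ℕ) (w : Fin a → Fin n → k) (v : Fin b → Fin n → k), a + b = n + 1 ∧
    LinearIndependent k w ∧ LinearIndependent k v ∧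
    ∀ s t, ∑ i, ∑ j, algebraMap k E (w s i) * M i j * algebraMap k E (v t j) = 0

/-- The conclusion of Q1 and Q2: there are nonzero rational vectors `w`, `v` with `wᵗ M v = 0`. -/
def HasRationalZero {E : Type} [Field E] [CharZero E] {n : ℕ} (M : Matrix (Fin n) (Fin n) E) :
    Prop :=
  ∃ w v : Fin n → ℚ, w ≠ 0 ∧ v ≠ 0 ∧ ∑ i, ∑ j, (w i : E) * M i j * (v j : E) = 0

/-- The set `S` of matrices with entries in `W` lies in an algebraic subset of dimension at most
`d`: any `d + 1` linear forms satisfy a nontrivial polynomial relation on `S`. -/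
def DimensionAtMost {K E : Type} [Field K] [Field E] [Algebra K E] (W : Submodule K E) {n : ℕ}
    (d : ℕ) (S : Set (Matrix (Fin n) (Fin n) W)) : Prop :=
  ∀ φ : Fin (d + 1) → (Matrix (Fin n) (Fin n) W →ₗ[K] K),
    ∃ P : MvPolynomial (Fin (d + 1)) K, P ≠ 0 ∧
      ∀ A ∈ S, MvPolynomial.eval (fun k => φ k A) P = 0

/-- The constant `C_n = (2 n - 1) (2 n - 2) + n ^ 2`. -/
def cst (n : ℕ) : ℕ := (2 * n - 1) * (2 * n - 2) + n * n

/-- The matrix with the entries `∑ k, A i j k * l k`. -/
noncomputable def logMatrix {E : Type} [Field E] {n N : ℕ} (l : Fin N → E)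
    (A : Fin n → Fin n → Fin N → ℤ) : Matrix (Fin n) (Fin n) E :=
  Matrix.of fun i j => ∑ k, (A i j k : E) * l k

/-- The number of the integer arrays `A` with entries of absolute value at most `H` such that the
matrix with the entries `∑ k, A i j k * l k` has the property `Q`. -/
noncomputable def number {E : Type} [Field E] {n N : ℕ} (l : Fin N → E) (H : ℕ)
    (Q : Matrix (Fin n) (Fin n) E → Prop) : ℕ :=
  Set.ncard {A : Fin n → Fin n → Fin N → ℤ | (∀ i j k, |A i j k| ≤ H) ∧ Q (logMatrix l A)}

/-- Few singular matrices with entries `∑ k, A i j k * l k` have no rational block of zeros, and few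
have no rational zero. -/
def FewExceptions {E : Type} [Field E] [CharZero E] (n N : ℕ) (l : Fin N → E) : Prop :=
  ∃ κ : ℕ, ∀ H : ℕ, 1 ≤ H →
    H ^ (n * (n - 1) * N) ≤ number l H (fun M : Matrix (Fin n) (Fin n) E => M.det = 0) ∧
    number l H (fun M : Matrix (Fin n) (Fin n) E => M.det = 0 ∧ ¬ HasZeroBlock ℚ M) ≤
      κ * H ^ ((n - 1) ^ 2 * N + cst n) ∧
    number l H (fun M : Matrix (Fin n) (Fin n) E => M.det = 0 ∧ ¬ HasRationalZero M) ≤
      κ * H ^ ((n - 1) ^ 2 * N + cst n) ∧
    number l H (fun M : Matrix (Fin n) (Fin n) E => M.det = 0 ∧ ¬ HasZeroBlock ℚ M) *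
      H ^ ((n - 1) * N) ≤
      κ * H ^ cst n * number l H (fun M : Matrix (Fin n) (Fin n) E => M.det = 0) ∧
    number l H (fun M : Matrix (Fin n) (Fin n) E => M.det = 0 ∧ ¬ HasRationalZero M) *
      H ^ ((n - 1) * N) ≤
      κ * H ^ cst n * number l H (fun M : Matrix (Fin n) (Fin n) E => M.det = 0)

/-- A rational block of zeros contains a rational zero. -/
theorem HasZeroBlock.zero {E : Type} [Field E] [CharZero E] {n : ℕ}
    {M : Matrix (Fin n) (Fin n) E} (h : HasZeroBlock ℚ M) : HasRationalZero M := by
  obtain ⟨a, b, w, v, hab, hw, hv, h0⟩ := h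
  have ha : a ≤ n := by
    have := hw.fintype_card_le_finrank
    rwa [Fintype.card_fin, Module.finrank_fintype_fun_eq_card, Fintype.card_fin] at this
  have hb : b ≤ n := by
    have := hv.fintype_card_le_finrank
    rwa [Fintype.card_fin, Module.finrank_fintype_fun_eq_card, Fintype.card_fin] at this
  refine ⟨w ⟨0, by omega⟩, v ⟨0, by omega⟩, hw.ne_zero _, hv.ne_zero _, ?_⟩
  have h1 := h0 ⟨0, by omega⟩ ⟨0, by omega⟩
  simpa only [eq_ratCast] using h1

theorem few_of {E : Type} [Field E] [CharZero E] {n N : ℕ} (hn : 1 ≤ n) (l : Fin N → E)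
    (h : ∃ κ : ℕ, ∀ H : ℕ, 1 ≤ H →
      Set.ncard {A : Fin n → Fin n → Fin N → ℤ | (∀ i j k, |A i j k| ≤ H) ∧
        (Matrix.of fun i j => ∑ k, (A i j k : E) * l k).det = 0 ∧
        ¬ HasZeroBlock ℚ (Matrix.of fun i j => ∑ k, (A i j k : E) * l k)} ≤
      κ * H ^ ((n - 1) * (n - 1) * N + cst n) ∧
      Set.ncard {A : Fin n → Fin n → Fin N → ℤ | (∀ i j k, |A i j k| ≤ H) ∧
        (Matrix.of fun i j => ∑ k, (A i j k : E) * l k).det = 0 ∧
        ¬ HasZeroBlock ℚ (Matrix.of fun i j => ∑ k, (A i j k : E) * l k)} * H ^ ((n - 1) * N) ≤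
      κ * H ^ (cst n) * Set.ncard {A : Fin n → Fin n → Fin N → ℤ | (∀ i j k, |A i j k| ≤ H) ∧
        (Matrix.of fun i j => ∑ k, (A i j k : E) * l k).det = 0}) : FewExceptions n N l := by
  obtain ⟨κ, hκ⟩ := h
  refine ⟨κ, fun H hH => ?_⟩
  obtain ⟨h1, h2⟩ := hκ H hH
  have hsub : number l H (fun M : Matrix (Fin n) (Fin n) E => M.det = 0 ∧ ¬ HasRationalZero M) ≤
      number l H (fun M : Matrix (Fin n) (Fin n) E => M.det = 0 ∧ ¬ HasZeroBlock ℚ M) := by
    refine Set.ncard_le_ncard ?_ (Pool.Agent.TH519.HS.sing_finite H _)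
    rintro A ⟨h3, h4, h5⟩
    exact ⟨h3, h4, fun h => h5 h.zero⟩
  have h6 : number l H (fun M : Matrix (Fin n) (Fin n) E => M.det = 0 ∧ ¬ HasZeroBlock ℚ M) ≤
      κ * H ^ ((n - 1) ^ 2 * N + cst n) := by
    rw [pow_two]
    exact h1
  refine ⟨?_, h6, hsub.trans h6, h2, (Nat.mul_le_mul_right _ hsub).trans h2⟩
  rw [Nat.mul_comm n]
  exact Pool.Agent.Y787.ZB.sing_lower' hn l H

/-- **Main result.** -/
theorem result (n : ℕ) (hn : 1 ≤ n) :
    -- complex logarithms
    ((∀ (W : Submodule (algebraicClosure ℚ ℂ) ℂ) [FiniteDimensional (algebraicClosure ℚ ℂ) W],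
        W ≤ LogForms → n ^ 2 + 2 * n ≤ Module.finrank (algebraicClosure ℚ ℂ) W + 2 →
        DimensionAtMost W ((n - 1) ^ 2 * Module.finrank (algebraicClosure ℚ ℂ) W + cst n)
          {A : Matrix (Fin n) (Fin n) W | (A.map (fun x => (x : ℂ))).det = 0 ∧
            ¬ HasZeroBlock (algebraicClosure ℚ ℂ) (A.map (fun x => (x : ℂ)))}) ∧
      ∀ (N : ℕ) (l : Fin N → ℂ), n ^ 2 + 2 * n ≤ N + 2 →
        (∀ k, IsAlgebraic ℚ (Complex.exp (l k))) → LinearIndependent ℚ l →
        FewExceptions n N l) ∧
    -- `p`-adic logarithms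
    ∀ (p : ℕ) [Fact p.Prime] (L : PadicAlgCl p → PadicAlgCl p), IsIwasawaLog p L →
      (∀ (W : Submodule (algebraicClosure ℚ (PadicAlgCl p)) (PadicAlgCl p))
        [FiniteDimensional (algebraicClosure ℚ (PadicAlgCl p)) W],
        W ≤ LogFormsP L →
        n ^ 2 + 2 * n ≤ Module.finrank (algebraicClosure ℚ (PadicAlgCl p)) W + 2 →
        DimensionAtMost W
          ((n - 1) ^ 2 * Module.finrank (algebraicClosure ℚ (PadicAlgCl p)) W + cst n)
          {A : Matrix (Fin n) (Fin n) W | (A.map (fun x => (x : PadicAlgCl p))).det = 0 ∧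
            ¬ HasZeroBlock (algebraicClosure ℚ (PadicAlgCl p))
              (A.map (fun x => (x : PadicAlgCl p)))}) ∧
      ∀ (N : ℕ) (l : Fin N → PadicAlgCl p), n ^ 2 + 2 * n ≤ N + 2 →
        (∀ k, ∃ α : PadicAlgCl p, α ≠ 0 ∧ IsAlgebraic ℚ α ∧ l k = L α) →
        LinearIndependent ℚ l → FewExceptions n N l := by
  have e2 : (n - 1) ^ 2 = (n - 1) * (n - 1) := pow_two _
  refine ⟨⟨?_, ?_⟩, ?_⟩
  · intro W _ hW hN
    rw [pow_two] at hN
    rw [e2]
    intro φ
    obtain ⟨P, h1, h2⟩ := Pool.Agent.Y787.ZB.zbC_dim W hW hN φ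
    exact ⟨P, h1, fun A hA => h2 A hA.1 hA.2⟩
  · intro N l hN halg hli
    rw [pow_two] at hN
    exact few_of hn l (Pool.Agent.Y787.ZB.zbC_count hn hN l halg hli)
  · intro p _ L hL
    have hL' : Pool.Agent.W245.PB.IsIwasawaLog p L := ⟨hL.mul, hL.prime, hL.ser⟩
    refine ⟨?_, ?_⟩
    · intro W _ hW hN
      rw [pow_two] at hN
      rw [e2]
      intro φ
      obtain ⟨P, h1, h2⟩ := Pool.Agent.Y787.ZB.zbP_dim hL' W hW hN φ
      exact ⟨P, h1, fun A hA => h2 A hA.1 hA.2⟩
    · intro N l hN hl hli
      rw [pow_two] at hN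
      exact few_of hn l (Pool.Agent.Y787.ZB.zbP_count hL' hn hN l hl hli)

end Pool.Agent.Results.MP_1f047c_nt.SingularWithoutZeroBlock
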