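import Pool.Agent.Y921.SR.Fin

/-!
# Singular matrices of logarithms: almost all tuples, with a power saving, over number fields

Let `θ_1, ..., θ_r` be distinct algebraic numbers. For every number field `K` of degree at most `d` and every `K`-space `V`
of complex numbers, of dimension at most `m`, for which Q1 holds over `K` (for instance `V = 0` or `dim V = 1`), and for all
but `C T ^ (k - c)` of the `k`-tuples `n` of integers in `[2, T]`, Q1 holds over `K` for the space `V + K l`, where the `l`
are any logarithms of the `k r` numbers `n_i + θ_j`; and the `l` are `K`-linearly independent modulo `V`. The constants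
`c > 0` and `C` depend only on `θ`, `k`, `d`, `m`.

The proof. For almost all tuples there is no polynomial relation of degree at most `m + k r + 1` between the `l` with
coefficients in a space of dimension `(d (m + 1)) ^ (m + k r + 1)` (`Pool.Agent.Y916.tuples`, helper916). So the determinant
of a singular matrix `W + ∑ C_p l_p`, `W` over `V`, `C_p` over `K`, vanishes for all values of the `l_p`, and a member
`∑ a_p C_p` of maximal rank reduces `W` to a smaller singular matrix over `V` (`Pool.Agent.Y921.SR.family`).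
-/

set_option autoImplicit false

open Module

namespace Pool.Agent.Results.MP_1f047c_nt.TuplesPowerSaving

/-- Every singular square matrix, of any size, with entries in the `K`-space `V` satisfies the conclusion of Q1 over
`K`. -/
def Q1Holds {K : IntermediateField ℚ ℂ} (V : Submodule K ℂ) : Prop :=
  ∀ N : ℕ, 1 ≤ N → ∀ M : Matrix (Fin N) (Fin N) ℂ, (∀ i j, M i j ∈ V) → M.det = 0 →
    ∃ w v : Fin N → K, w ≠ 0 ∧ v ≠ 0 ∧ ∑ i, ∑ j, (w i : ℂ) * M i j * (v j : ℂ) = 0

/-- The numbers `l_p` are `K`-linearly independent modulo `V`, and Q1 holds for the space generated by `V` and the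
`l_p`. -/
def Extends {K : IntermediateField ℚ ℂ} (V : Submodule K ℂ) {k r : ℕ} (l : Fin k × Fin r → ℂ) : Prop :=
  finrank K (V ⊔ Submodule.span K (Set.range l) : Submodule K ℂ) = finrank K V + k * r ∧
    Q1Holds (V ⊔ Submodule.span K (Set.range l))

/-- The `k`-tuples `n` of integers in `[2, T]` for which `Extends V l` fails for some choice of the logarithms `l` of the
numbers `n_i + θ_j`. -/
def Exceptional {K : IntermediateField ℚ ℂ} (V : Submodule K ℂ) {k r : ℕ} (θ : Fin r → ℂ) (T : ℕ) : Set (Fin k → ℕ) :=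
  {n | (∀ i, 2 ≤ n i ∧ n i ≤ T) ∧ ∃ l : Fin k × Fin r → ℂ,
    (∀ p, Complex.exp (l p) = n p.1 + θ p.2) ∧ ¬ Extends V l}

theorem q1_iff {K : IntermediateField ℚ ℂ} (V : Submodule K ℂ) : Q1Holds V ↔ Pool.Agent.Y921.SR.ZeroProp V := by
  have h : ∀ (N : ℕ) (M : Matrix (Fin N) (Fin N) ℂ) (w v : Fin N → K),
      ∑ i, ∑ j, (w i : ℂ) * M i j * (v j : ℂ) = ∑ i, ∑ j, (w i * v j) • M i j := by
    intro N M w v
    refine Finset.sum_congr rfl fun i _ => Finset.sum_congr rfl fun j _ => ?_
    rw [Algebra.smul_def, map_mul]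
    simp only [IntermediateField.algebraMap_apply]
    ring
  unfold Q1Holds Pool.Agent.Y921.SR.ZeroProp
  simp only [h]

theorem result {r : ℕ} (θ : Fin r → ℂ) (hθ : ∀ j, IsAlgebraic ℚ (θ j)) (hinj : Function.Injective θ) (k d m : ℕ) :
    ∃ c : ℝ, 0 < c ∧ ∃ C : ℝ, ∀ K : IntermediateField ℚ ℂ, FiniteDimensional ℚ K → finrank ℚ K ≤ d →
      ∀ V : Submodule K ℂ, Module.Finite K V → finrank K V ≤ m → (finrank K V ≤ 1 ∨ Q1Holds V) → ∀ T : ℕ, 1 ≤ T →
      (Exceptional V θ T : Set (Fin k → ℕ)).Finite ∧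
      ((Exceptional V θ T : Set (Fin k → ℕ)).ncard : ℝ) ≤ C * (T : ℝ) ^ ((k : ℝ) - c) := by
  obtain ⟨c, hc, C, h⟩ := Pool.Agent.Y921.SR.tuples θ hθ hinj k d m
  refine ⟨c, hc, C, fun K hK hKd V hV hVm hV0 T hT => ?_⟩
  have hV1 : Pool.Agent.Y921.SR.ZeroProp V := by
    rcases hV0 with h1 | h1
    · exact Pool.Agent.Y921.SR.zeroProp_small V h1
    · exact (q1_iff V).1 h1
  have h2 := h K hK hKd V hV hVm hV1 T hT
  have e : (Exceptional V θ T : Set (Fin k → ℕ)) = {n : Fin k → ℕ | (∀ i, 2 ≤ n i ∧ n i ≤ T) ∧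
      ∃ l : Fin k × Fin r → ℂ, (∀ p, Complex.exp (l p) = n p.1 + θ p.2) ∧
        ¬ (finrank K (V ⊔ Submodule.span K (Set.range l) : Submodule K ℂ) = finrank K V + k * r ∧
          Pool.Agent.Y921.SR.ZeroProp (V ⊔ Submodule.span K (Set.range l)))} := by
    unfold Exceptional Extends
    simp only [q1_iff]
  rw [e]
  exact h2

end Pool.Agent.Results.MP_1f047c_nt.TuplesPowerSaving
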